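import Pool.Agent.U722.FF.Stm2
import Pool.Agent.N24.TR.Tree

/-!
# Project FS, package FREE: a group acting freely on a tree embeds into a free group
-/

set_option autoImplicit false

namespace Pool.Agent.U397.FSP

open U722.FF Pool.Agent.N24.TR SimpleGraph MulAction

theorem kk_smul {G V : Type} [Group G] [MulAction G V] (g : G) (u v : V) :
    kk (⊤ : Subgroup G) (g • u) (g • v) = kk (⊤ : Subgroup G) u v := by
  refine (Quotient.sound ?_).symm
  exact ⟨g, trivial, rfl⟩

theorem t_FREE : S_FREE := by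
  intro G V E _ _ _ T s t hT hOE hstab
  classical
  obtain ⟨o⟩ := hT.connected.nonempty
  have hact : ∀ (g : G) (u v : V), T.Adj u v → T.Adj (g • u) (g • v) := by
    intro g u v h
    obtain ⟨e, he | he⟩ := hOE.all u v h
    · rw [← he.1, ← he.2, ← hOE.s_act, ← hOE.t_act]
      exact hOE.adj _
    · rw [← he.1, ← he.2, ← hOE.s_act, ← hOE.t_act]
      exact (hOE.adj _).symm
  have hfree : ∀ (v : V) (n : G), n • v = v → n = 1 := by
    intro v n h
    have h1 := (hstab v).elim ⟨n, h⟩ 1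
    exact congrArg Subtype.val h1
  have hinv : ∀ u v, T.Adj u v → kk (⊤ : Subgroup G) u v ≠ kk (⊤ : Subgroup G) v u := by
    intro u v h h2
    obtain ⟨n, -, h3, h4⟩ := kk_eq _ h2
    obtain ⟨e, he | he⟩ := hOE.all u v h
    · refine hOE.one e (n • e) ?_ ?_
      · rw [hOE.t_act, he.1, he.2, h4]
      · rw [hOE.s_act, he.1, he.2, h3]
    · refine hOE.one e (n • e) ?_ ?_
      · rw [hOE.t_act, he.1, he.2, h3]
      · rw [hOE.s_act, he.1, he.2, h4]
  have hsy : ∀ u v, T.Adj u v → sy (kk (⊤ : Subgroup G)) u v * sy (kk (⊤ : Subgroup G)) v u = 1 :=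
    fun u v _ => sy_mul _ u v
  have hmap : ∀ (g : G) (u v : V), gam hT (sy (kk (⊤ : Subgroup G))) (g • u) (g • v) =
      gam hT (sy (kk (⊤ : Subgroup G))) u v := by
    intro g u v
    refine gam_map hT hact _ hsy g (MonoidHom.id _) (fun u v => ?_) u v
    show sy _ u v = sy _ (g • u) (g • v)
    unfold sy
    rw [kk_smul, kk_smul]
  refine ⟨XX (⊤ : Subgroup G) V, MonoidHom.mk'
    (fun g => gam hT (sy (kk (⊤ : Subgroup G))) o (g • o)) (by
      intro g h
      rw [mul_smul, ← gam_mul hT _ hsy o (g • o) (g • h • o), hmap]), ?_⟩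
  rw [injective_iff_map_eq_one]
  intro g hg
  have hgl : gam hT (sy (kk (⊤ : Subgroup G))) o (g • o) = 1 := hg
  obtain ⟨p⟩ := hT.connected.preconnected o (g • o)
  have h1 : FreeGroup.IsReduced (wd (kk (⊤ : Subgroup G)) p.bypass) := by
    refine wd_reduced (kk (⊤ : Subgroup G)) hinv (fun _ => True) ?_ p.bypass
      p.bypass_isPath (fun _ _ => trivial)
    intro v u w _ _ _ h2
    obtain ⟨n, -, h3, h4⟩ := kk_eq _ h2
    rw [hfree v n h3, one_smul] at h4
    exact h4
  rw [gam_eq hT _ hsy p.bypass, wp_wd] at hgl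
  have h2 : wd (kk (⊤ : Subgroup G)) p.bypass = [] := by
    have h3 : (FreeGroup.mk (wd (kk (⊤ : Subgroup G)) p.bypass)).toWord =
        wd (kk (⊤ : Subgroup G)) p.bypass := by
      rw [FreeGroup.toWord_mk]
      exact h1.reduce_eq
    rw [← h3, hgl]
    rfl
  exact hfree o g (wd_nil _ p.bypass h2).symm

end Pool.Agent.U397.FSP
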